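import Pool.Agent.X183.Gap.B5

/-!
# Transverse measures invariant under the stable holonomy
-/

set_option autoImplicit false

open Filter Topology Set Metric MeasureTheory

namespace Pool.Agent.X183.Tm

open Pool.Agent.H789R2.AN Pool.Agent.Y330.G Pool.Agent.X183.Gap

variable {X : Type*} [MetricSpace X]

/-- A family of measures on the unstable sets, invariant under the stable holonomy (metric form). -/
structure TI [MeasurableSpace X] (g : X ≃ₜ X) (c : ℝ) (ν : X → Measure X) : Prop where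
  leaf : ∀ x y, WS g.symm x y → ν x = ν y
  fin : ∃ ε > 0, ∀ x, ν x {y | SR g.symm ε x y} < ⊤
  pos : ∀ ε > 0, ∀ x, 0 < ν x {y | SR g.symm ε x y}
  inv : ∀ (K : ℕ) (x y : X) (A B : Set X) (H : X → X), MeasurableSet A → MeasurableSet B →
    (∀ z ∈ A, WS g.symm x z) → (∀ z ∈ B, WS g.symm y z) → BijOn H A B →
    (∀ z ∈ A, SR g c (g^[K] z) (g^[K] (H z))) → ν x A = ν y B

theorem isClosed_SR (g : X ≃ₜ X) (ε : ℝ) : IsClosed {q : X × X | SR g ε q.1 q.2} := by
  have e : {q : X × X | SR g ε q.1 q.2} = ⋂ k : ℕ, {q | dist (g^[k] q.1) (g^[k] q.2) ≤ ε} := by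
    ext q
    simp [SR]
  rw [e]
  exact isClosed_iInter fun k => isClosed_le
    (((g.continuous.iterate k).comp continuous_fst).dist
      ((g.continuous.iterate k).comp continuous_snd)) continuous_const

/-- the disc at time `-k` -/
def DK (g : X ≃ₜ X) (ε : ℝ) (k : ℕ) (x : X) : Set X := {u | SR g.symm ε x (g^[k] u)}

theorem isClosed_DK (g : X ≃ₜ X) (ε : ℝ) (k : ℕ) (x : X) : IsClosed (DK g ε k x) :=
  (isClosed_SR g.symm ε).preimage (continuous_const.prodMk (g.continuous.iterate k))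

theorem DK_zero (g : X ≃ₜ X) (ε : ℝ) (x : X) : DK g ε 0 x = {y | SR g.symm ε x y} := rfl

theorem ws_of_DK {g : X ≃ₜ X} {c ε : ℝ} (h : LP g c) (hε : ε ≤ c) {k : ℕ} {x u : X}
    (hu : u ∈ DK g ε k x) : WS g.symm (g.symm^[k] x) u := by
  have h1 : WS g.symm x (g^[k] u) := WS.of_SR (h.cU _ _ (SR.mono hu hε))
  have h2 := (WS.iter (g := g.symm) k).mpr h1
  rwa [iterL] at h2

theorem TI.fin_all [CompactSpace X] [MeasurableSpace X] {g : X ≃ₜ X} {c : ℝ} (h : LP g c)
    {ν : X → Measure X} (H : TI g c ν) {ε' : ℝ} (hε' : 2 * ε' ≤ c) (x : X) :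
    ν x {y | SR g.symm ε' x y} < ⊤ := by
  obtain ⟨ε, hε, hfin⟩ := H.fin
  obtain ⟨j, hj⟩ := pw (c := c) hε
  obtain ⟨η, hη, hu⟩ := uc g.symm g.symm.continuous j hε
  have hD : IsCompact {y | SR g.symm ε' x y} := (isClosed_DK g ε' 0 x).isCompact
  obtain ⟨t, htD, htf, hcov⟩ := hD.finite_cover_balls hη
  have hsub : {y | SR g.symm ε' x y} ⊆ ⋃ z ∈ t, {y | SR g.symm ε z y} := by
    intro y hy
    obtain ⟨z, hz, hyz⟩ := mem_iUnion₂.mp (hcov hy)
    refine mem_iUnion₂.mpr ⟨z, hz, fun i => ?_⟩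
    have h1 : SR g.symm c z y := (sr_tr (SR.symm' (htD hz)) hy).mono (by linarith)
    rcases le_total i j with hi | hi
    · have := hu i hi z y (by rw [dist_comm]; exact hyz)
      exact this.le
    · exact (h.cU _ _ h1 i).trans ((pw_anti h.c_pos hi).trans hj)
  refine lt_of_le_of_lt (measure_mono hsub) ?_
  refine lt_of_le_of_lt (measure_biUnion_le (ν x) htf.countable _) ?_
  have : Fintype t := htf.fintype
  rw [tsum_fintype]
  refine ENNReal.sum_lt_top.mpr fun z _ => ?_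
  have h2 : WS g.symm x z := WS.of_SR (h.cU _ _ (SR.mono (htD z.2) (by
    have := h.c_pos
    linarith)))
  rw [H.leaf x z h2]
  exact hfin z

/-- a maximal separated set is spanning -/
theorem P_max [CompactSpace X] {g : X ≃ₜ X} {ε δ : ℝ} (hδ : 0 < δ) {n : ℕ} {x : X} {F : Finset X}
    (hF : Val g ε δ n x F) (hc : F.card = P g ε δ n x) {y : X} (hy : SR g.symm ε x y) :
    ∃ z ∈ F, ∀ k ≤ n, dist (g^[k] z) (g^[k] y) ≤ δ := by
  classical
  by_contra hcon
  push Not at hcon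
  have hyF : y ∉ F := by
    intro h
    obtain ⟨k, -, hk⟩ := hcon y h
    rw [dist_self] at hk
    linarith
  have h1 : Val g ε δ n x (insert y F) := by
    refine ⟨fun z hz => ?_, ?_⟩
    · rcases Finset.mem_insert.mp hz with rfl | hz
      · exact hy
      · exact hF.1 z hz
    · intro a ha b hb hab
      rw [Finset.mem_insert] at ha hb
      rcases ha with rfl | ha <;> rcases hb with rfl | hb
      · exact absurd rfl hab
      · obtain ⟨k, hk, h1⟩ := hcon b hb
        exact ⟨k, hk, by rwa [dist_comm]⟩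
      · obtain ⟨k, hk, h1⟩ := hcon a ha
        exact ⟨k, hk, h1⟩
      · exact hF.2 a ha b hb hab
  have h2 := P_le hδ h1
  rw [Finset.card_insert_of_notMem hyF] at h2
  omega

/-- The small images of discs are not too small, for one disc. -/
theorem TI.good [CompactSpace X] [MeasurableSpace X] [Nonempty X] {g : X ≃ₜ X} {c : ℝ}
    (h : LP g c) {ν : X → Measure X} (H : TI g c ν) {A : Set X} (hA : MinAtt g A) {a : X}
    (ha : a ∈ A) : ∃ C : ℕ, ∀ k, ∃ z ∈ A, ν a {y | SR g.symm (c / 8) a y} ≤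
      (C * P g (c / 4) (c / 2) k a : ℕ) * ν (g.symm^[k] z) (DK g (c / 4) k z) := by
  have hc := h.c_pos
  obtain ⟨K, -, j, hK⟩ := P_gen h (ε := c / 8) (ε' := c / 4) (δ := c / 4) (δ' := c / 2)
    (by linarith) (by linarith) (by linarith) (by linarith) (by linarith) (by linarith)
  obtain ⟨δ₁, hδ₁, C, hC⟩ := growth_near h hA
  refine ⟨K * C, fun k => ?_⟩
  obtain ⟨F, hF, hFc⟩ := P_att g (c / 8) (show 0 < c / 4 by linarith) k a
  have hsub : {y | SR g.symm (c / 8) a y} ⊆ ⋃ z ∈ F, DK g (c / 4) k (g^[k] z) := by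
    intro y hy
    obtain ⟨z, hz, h1⟩ := P_max (by linarith) hF hFc hy
    refine mem_iUnion₂.mpr ⟨z, hz, ?_⟩
    show SR g.symm (c / 4) (g^[k] z) (g^[k] y)
    exact sr_of g h1 ((sr_tr (SR.symm' (hF.1 z hz)) hy).mono (by linarith))
  have hFA : ∀ z ∈ F, z ∈ A := fun z hz =>
    hA.1.sat a ha z (WS.of_SR (h.cU _ _ ((hF.1 z hz).mono (by linarith))))
  have hFne : F.Nonempty := by
    rw [← Finset.card_pos, hFc]
    exact one_le_P g (by linarith) (by linarith) k a
  obtain ⟨z, hz, hmax⟩ := Finset.exists_max_image F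
    (fun z => ν a (DK g (c / 4) k (g^[k] z))) hFne
  refine ⟨g^[k] z, (inv_iter hA.1.inv k z).mpr (hFA z hz), ?_⟩
  rw [iterL]
  have e : ν z = ν a := (H.leaf a z (WS.of_SR (h.cU _ _ ((hF.1 z hz).mono (by linarith))))).symm
  rw [e]
  have hcard : F.card ≤ K * C * P g (c / 4) (c / 2) k a := by
    rw [hFc]
    have hja : g.symm^[j] a ∈ A := (inv_iter (inv_symm hA.1.inv) j a).mpr ha
    calc _ ≤ _ := hK k a
      _ ≤ K * (C * P g (c / 4) (c / 2) k a) :=
        Nat.mul_le_mul_left _ (hC k _ hja a (near_of_mem hδ₁ ha))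
      _ = _ := by ring
  calc ν a {y | SR g.symm (c / 8) a y} ≤ ν a (⋃ z ∈ F, DK g (c / 4) k (g^[k] z)) :=
        measure_mono hsub
    _ ≤ ∑ z ∈ F, ν a (DK g (c / 4) k (g^[k] z)) := measure_biUnion_finset_le _ _
    _ ≤ ∑ _z ∈ F, ν a (DK g (c / 4) k (g^[k] z)) := Finset.sum_le_sum fun z' hz' => hmax z' hz'
    _ = (F.card : ENNReal) * ν a (DK g (c / 4) k (g^[k] z)) := by
        rw [Finset.sum_const, nsmul_eq_mul]
    _ ≤ _ := by
        gcongr

end Pool.Agent.X183.Tm
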