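import Pool.Agent.X183.Tm.A1

/-!
# Copies of discs under the stable holonomy
-/

set_option autoImplicit false

open Filter Topology Set Metric MeasureTheory

namespace Pool.Agent.X183.Tm

open Pool.Agent.H789R2.AN Pool.Agent.Y330.G Pool.Agent.X183.Gap

variable {X : Type*} [MetricSpace X]

/-- From a point near a minimal attractor one reaches all points of the attractor. -/
theorem reach [CompactSpace X] {g : X ≃ₜ X} {c : ℝ} (h : LP g c) {A : Set X}
    (hA : MinAtt g A) {δ : ℝ} (hδ : 0 < δ) (J₀ : ℕ) : ∃ N : ℕ, ∃ δ₁ > 0, ∀ x ∈ A, ∀ y,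
      (∃ v ∈ A, dist v y < δ₁) →
      ∃ J ≤ N, ∃ z, SR g.symm c (g^[J₀] y) z ∧ dist x (g^[J] z) < δ := by
  have hc := h.c_pos
  set η := min (δ / 4) (c / 4) with hη
  have hη0 : 0 < η := lt_min (by linarith) (by linarith)
  have hη1 : η ≤ δ / 4 := min_le_left _ _
  have hη2 : η ≤ c / 4 := min_le_right _ _
  obtain ⟨N, hN⟩ := conn2 (g := g.symm) h.symm hA (ε := η) (η := η) hη0 (by linarith) hη0
  obtain ⟨η', hη', hu⟩ := uc g g.continuous N hη0
  obtain ⟨δ₂, hδ₂, hh⟩ := hol h (show 0 < min (η' / 2) η from lt_min (half_pos hη') hη0)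
  obtain ⟨δ₁, hδ₁, hu2⟩ := uc g g.continuous J₀ hδ₂
  refine ⟨N, δ₁, hδ₁, fun x hx y hy => ?_⟩
  obtain ⟨v, hv, hvy⟩ := hy
  have hgv : g^[J₀] v ∈ A := (inv_iter hA.1.inv J₀ v).mpr hv
  obtain ⟨J, hJ, z, h1, h2⟩ := hN x hx _ hgv
  obtain ⟨z', h3, h4⟩ := hh η (by linarith) (g^[J₀] v) (g^[J₀] y) (g.symm^[J] z)
    (hu2 J₀ le_rfl v y hvy) h2
  refine ⟨J, hJ, z', h4.mono ?_, ?_⟩
  · have := min_le_right (η' / 2) η
    linarith
  · have h5 := h3 0
    simp only [Function.iterate_zero, id] at h5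
    have h6 : dist (g.symm^[J] z) z' < η' := by
      have := min_le_left (η' / 2) η
      linarith
    have h7 := hu J hJ _ _ h6
    rw [iterR] at h7
    have h8 := h1 0
    simp only [Function.iterate_zero, id] at h8
    have := dist_triangle x z (g^[J] z')
    linarith

/-- If from the unstable set of `y` one reaches the point `x`, then the discs at `y` are at least as
large as the (later) discs at `x`. -/
theorem TI.copy [CompactSpace X] [MeasurableSpace X] [BorelSpace X] {g : X ≃ₜ X} {c : ℝ}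
    (h : LP g c) {ν : X → Measure X} (H : TI g c ν) :
    ∃ δ > 0, ∃ J₀ : ℕ, ∀ (k J : ℕ) (x y : X),
      (∃ z, SR g.symm c (g^[J₀] y) z ∧ dist x (g^[J] z) < δ) →
      ν (g.symm^[k + (J + J₀)] x) (DK g (c / 4) (k + (J + J₀)) x) ≤
        ν (g.symm^[k] y) (DK g (c / 4) k y) := by
  have hc := h.c_pos
  obtain ⟨δ, hδ, hh⟩ := hol h (show 0 < c / 16 by linarith)
  obtain ⟨J₀, hJ₀⟩ := pw (c := c) (show 0 < c / 8 by linarith)
  refine ⟨δ, hδ, J₀, fun k J x y hyx => ?_⟩
  obtain ⟨z, hz1, hxz⟩ := hyx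
  have hch : ∀ p, ∃ p', SR g.symm (c / 4) x p →
      SR g (c / 16) p p' ∧ SR g.symm (c / 4 + c / 16) (g^[J] z) p' := by
    intro p
    by_cases hp : SR g.symm (c / 4) x p
    · obtain ⟨p', h3⟩ := hh (c / 4) (by linarith) x (g^[J] z) p hxz hp
      exact ⟨p', fun _ => h3⟩
    · exact ⟨p, fun h => absurd h hp⟩
  choose φ hφ using hch
  set K := k + (J + J₀) with hK
  set Hm : X → X := fun u => g.symm^[K] (φ (g^[K] u)) with hHm
  have hinj : ∀ p p', SR g.symm (c / 4) x p → SR g.symm (c / 4) x p' → φ p = φ p' → p = p' := by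
    intro p p' hp hp' he
    apply expans h
    · have h1 := (hφ p hp).1
      have h2 := (hφ p' hp').1
      rw [← he] at h2
      exact (sr_tr h1 h2.symm').mono (by linarith)
    · exact (sr_tr hp.symm' hp').mono (by linarith)
  have himg : Hm '' DK g (c / 4) K x = {v | ∃ p, SR g.symm (c / 4) x p ∧
      SR g (c / 16) p (g^[K] v) ∧ SR g.symm (c / 4 + c / 16) (g^[J] z) (g^[K] v)} := by
    ext v
    constructor
    · rintro ⟨u, hu, rfl⟩
      refine ⟨g^[K] u, hu, ?_⟩
      rw [hHm]
      simp only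
      rw [iterR]
      exact hφ _ hu
    · rintro ⟨p, hp, h1, h2⟩
      refine ⟨g.symm^[K] p, ?_, ?_⟩
      · show SR g.symm (c / 4) x (g^[K] (g.symm^[K] p))
        rwa [iterR]
      · rw [hHm]
        simp only
        rw [iterR]
        have h3 : φ p = g^[K] v := by
          apply expans h
          · exact (sr_tr (hφ p hp).1.symm' h1).mono (by linarith)
          · exact (sr_tr (hφ p hp).2.symm' h2).mono (by linarith)
        rw [h3, iterL]
  have hclosed : IsClosed {v | ∃ p, SR g.symm (c / 4) x p ∧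
      SR g (c / 16) p (g^[K] v) ∧ SR g.symm (c / 4 + c / 16) (g^[J] z) (g^[K] v)} := by
    have h1 : IsClosed {q : X × X | SR g.symm (c / 4) x q.1 ∧
        SR g (c / 16) q.1 (g^[K] q.2) ∧ SR g.symm (c / 4 + c / 16) (g^[J] z) (g^[K] q.2)} := by
      refine IsClosed.inter ?_ (IsClosed.inter ?_ ?_)
      · exact (isClosed_SR g.symm (c / 4)).preimage (continuous_const.prodMk continuous_fst)
      · exact (isClosed_SR g (c / 16)).preimage
          (continuous_fst.prodMk ((g.continuous.iterate K).comp continuous_snd))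
      · exact (isClosed_SR g.symm (c / 4 + c / 16)).preimage
          (continuous_const.prodMk ((g.continuous.iterate K).comp continuous_snd))
    have h2 : IsCompact (Prod.snd '' {q : X × X | SR g.symm (c / 4) x q.1 ∧
        SR g (c / 16) q.1 (g^[K] q.2) ∧ SR g.symm (c / 4 + c / 16) (g^[J] z) (g^[K] q.2)}) :=
      h1.isCompact.image continuous_snd
    have h3 : (Prod.snd '' {q : X × X | SR g.symm (c / 4) x q.1 ∧
        SR g (c / 16) q.1 (g^[K] q.2) ∧ SR g.symm (c / 4 + c / 16) (g^[J] z) (g^[K] q.2)}) =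
        {v | ∃ p, SR g.symm (c / 4) x p ∧
      SR g (c / 16) p (g^[K] v) ∧ SR g.symm (c / 4 + c / 16) (g^[J] z) (g^[K] v)} := by
      ext v
      constructor
      · rintro ⟨⟨p, w⟩, hq, rfl⟩
        exact ⟨p, hq⟩
      · rintro ⟨p, hp⟩
        exact ⟨(p, v), hp, rfl⟩
    rw [← h3]
    exact h2.isClosed
  -- the image lies in the disc at `y`
  have hsub : Hm '' DK g (c / 4) K x ⊆ DK g (c / 4) k y := by
    rintro _ ⟨u, hu, rfl⟩
    show SR g.symm (c / 4) y (g^[k] (g.symm^[K] (φ (g^[K] u))))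
    rw [fw g (show k ≤ K by omega)]
    have e0 : K - k = J + J₀ := by omega
    rw [e0]
    intro i
    have h3 := h.cU _ _ hz1 (i + J₀)
    have h4 := h.cU _ _ ((hφ (g^[K] u) hu).2.mono (show c / 4 + c / 16 ≤ c by linarith))
      (i + (J + J₀))
    rw [bk' g (show J₀ ≤ i + J₀ by omega), Nat.add_sub_cancel] at h3
    have e : i + (J + J₀) - J = i + J₀ := by omega
    rw [bk' g (show J ≤ i + (J + J₀) by omega), e,
      Function.iterate_add_apply g.symm i (J + J₀) (φ (g^[K] u))] at h4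
    have h5 := (pw_anti hc (show J₀ ≤ i + J₀ by omega)).trans hJ₀
    have h6 := (pw_anti hc (show J₀ ≤ i + (J + J₀) by omega)).trans hJ₀
    have := dist_triangle (g.symm^[i] y) (g.symm^[i + J₀] z)
      (g.symm^[i] (g.symm^[J + J₀] (φ (g^[K] u))))
    linarith
  have hinv := H.inv K (g.symm^[K] x) (g.symm^[k] y) (DK g (c / 4) K x)
    (Hm '' DK g (c / 4) K x) Hm (isClosed_DK g _ _ _).measurableSet
    (by rw [himg]; exact hclosed.measurableSet)
    (fun u hu => ws_of_DK h (by linarith) hu)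
    (fun v hv => ws_of_DK h (by linarith) (hsub hv))
    (InjOn.bijOn_image (by
      intro u hu v hv huv
      have h1 : φ (g^[K] u) = φ (g^[K] v) := (g.symm.injective.iterate K) huv
      exact (g.injective.iterate K) (hinj _ _ hu hv h1)))
    (by
      intro u hu
      rw [hHm]
      simp only
      rw [iterR]
      exact (hφ _ hu).1.mono (by linarith))
  rw [hinv]
  exact measure_mono hsub

end Pool.Agent.X183.Tm
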