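import Pool.Agent.X183.Tm.A2

/-!
# A summability condition
-/

set_option autoImplicit false

open Filter Topology Set Metric MeasureTheory

namespace Pool.Agent.X183.Tm

open Pool.Agent.H789R2.AN Pool.Agent.Y330.G Pool.Agent.X183.Gap

variable {X : Type*} [MetricSpace X]

/-- If there is a transverse measure of full support that is invariant under the stable holonomy,
the stable growth on a repeller divided by the unstable growth on an attractor is summable. -/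
theorem TI.sum_bound [CompactSpace X] [MeasurableSpace X] [BorelSpace X] [Nonempty X]
    {g : X ≃ₜ X} {c : ℝ}
    (h : LP g c) {ν : X → Measure X} (H : TI g c ν) {R A : Set X}
    (hR : MinAtt g.symm R) (hA : MinAtt g A) (hdisj : Disjoint A R)
    (hcon : ∃ r ∈ R, ∃ w, WS g.symm r w ∧ w ∈ Bas g A) {r : X} (hr : r ∈ R) {a : X} (ha : a ∈ A) :
    ∃ C : ℝ, ∃ j₂ : ℕ, ∀ j₀ ≥ j₂, ∀ m : ℕ,
      ∑ i ∈ Finset.range m, (P g.symm (c / 4) (c / 2) (j₀ * (i + 1)) r : ℝ) /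
        P g (c / 4) (c / 2) (j₀ * (i + 1)) a ≤ C := by
  classical
  have hc := h.c_pos
  set p : ℕ → ℕ := fun k => P g (c / 4) (c / 2) k a with hp
  set q : ℕ → ℕ := fun k => P g.symm (c / 4) (c / 2) k r with hq
  obtain ⟨δc, hδc, J₀, hcopy⟩ := H.copy h
  obtain ⟨Nr, δn, hδn, hreach⟩ := reach h hA hδc J₀
  obtain ⟨ρ, hρ, hρAR⟩ := dist_disj hA.1.closed hR.1.closed hdisj
  obtain ⟨T₀, hT₀⟩ := exit_bas_unif h hR hA.1 hcon (ε := c / 16) (by linarith) (by linarith)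
    (δ₁ := min δn (ρ / 2)) (lt_min hδn (half_pos hρ))
  obtain ⟨η₂, hη₂, huT⟩ := uc g g.continuous T₀ (half_pos hρ)
  have hgR : ∀ k y, y ∈ R → g^[k] y ∈ R := fun k y hy =>
    (inv_iter (fun x => by rw [← hR.1.inv (g x), g.symm_apply_apply]) k y).mpr hy
  have hex : ∀ v ∈ R, ∃ w, SR g.symm (c / 16) v w ∧ (∀ r ∈ R, η₂ ≤ dist w r) ∧
      ∀ t ≥ T₀, ∃ a ∈ A, dist a (g^[t] w) < δn := by
    intro v hv
    obtain ⟨w, h1, h2⟩ := hT₀ v hv
    refine ⟨w, h1, fun r' hr' => ?_, fun t ht => ?_⟩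
    · by_contra hcon'
      push Not at hcon'
      have h3 := huT T₀ le_rfl _ _ hcon'
      obtain ⟨a', ha', h4⟩ := h2 T₀ le_rfl
      have h5 := hρAR a' ha' _ (hgR T₀ r' hr')
      have h6 := min_le_right δn (ρ / 2)
      have := dist_triangle a' (g^[T₀] w) (g^[T₀] r')
      linarith
    · obtain ⟨a', ha', h4⟩ := h2 t ht
      exact ⟨a', ha', h4.trans_le (min_le_left _ _)⟩
  obtain ⟨N, hdual⟩ := dual h hR hr (ε := c / 8) (η := c / 16) (δ := c / 2) (ε₀ := c / 4)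
    (by linarith) (by linarith) (by linarith) (by linarith) (by linarith)
  obtain ⟨j₁, hj₁⟩ := pw (c := c) (show 0 < η₂ / 4 by linarith)
  set ε₃ := min (c / 16) (η₂ / 4) with hε₃
  have hε₃0 : 0 < ε₃ := lt_min (by linarith) (by linarith)
  have hε₃1 : ε₃ ≤ c / 16 := min_le_left _ _
  have hε₃2 : ε₃ ≤ η₂ / 4 := min_le_right _ _
  obtain ⟨K₁, hK₁, h1⟩ := P_shift h.symm (ε := c / 4) (δ := c / 2) (by linarith) (by linarith)
    (by linarith) N
  obtain ⟨je, hje⟩ := pw (c := c) hε₃0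
  set T := max T₀ je with hT
  set N₁ := T + Nr + J₀ with hN₁
  obtain ⟨C₁, hgood⟩ := H.good h hA ha
  obtain ⟨K₄, hK₄, h4⟩ := P_shift h (ε := c / 4) (δ := c / 2) (by linarith) (by linarith)
    (by linarith) N₁
  set b := ν a {y | SR g.symm (c / 8) a y} with hb
  have hb0 : 0 < b := H.pos (c / 8) (by linarith) a
  have hbt : b < ⊤ := H.fin_all h (by linarith) a
  set β := b.toReal with hβ
  have hβ0 : 0 < β := ENNReal.toReal_pos hb0.ne' hbt.ne
  set V : ENNReal := ∑ J ∈ Finset.range (Nr + 1),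
    ν (g.symm^[J] r) {y | SR g.symm (c / 4) (g.symm^[J] r) y} with hV
  have hVt : V < ⊤ := ENNReal.sum_lt_top.mpr fun J _ => H.fin_all h (by linarith) _
  refine ⟨K₁ * (N + 1) * (C₁ * K₄) / β * V.toReal, max N j₁ + 1, ?_⟩
  intro j₀ hj₀ m
  have hNj : N ≤ j₀ := by have := le_max_left N j₁; omega
  have hj₁j : j₁ ≤ j₀ := by have := le_max_right N j₁; omega
  -- the pieces
  have hF : ∀ i, ∃ F : Finset X, (∀ y ∈ F, SR g.symm (c / 8) r y ∧ y ∈ R) ∧
      Sep g (3 * c / 8) (j₀ * (i + 1)) F ∧ q (j₀ * (i + 1)) ≤ K₁ * (N + 1) * F.card := by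
    intro i
    have hk : N ≤ j₀ * (i + 1) := by nlinarith
    obtain ⟨F₀, hF₀, hF₀c⟩ := P_att g.symm (c / 4) (show 0 < c / 2 by linarith)
      (j₀ * (i + 1) - N) r
    obtain ⟨F', hF1, hF2, hF3⟩ := hdual _ r hr F₀ hF₀
    have e : j₀ * (i + 1) - N + N = j₀ * (i + 1) := by omega
    rw [e] at hF2
    have h4 := h1 (j₀ * (i + 1) - N) r
    rw [e] at h4
    refine ⟨F', hF1, hF2.mono (by linarith) le_rfl, ?_⟩
    calc q (j₀ * (i + 1)) ≤ K₁ * P g.symm (c / 4) (c / 2) (j₀ * (i + 1) - N) r := h4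
      _ = K₁ * F₀.card := by rw [hF₀c]
      _ ≤ K₁ * ((N + 1) * F'.card) := Nat.mul_le_mul_left _ hF3
      _ = _ := by ring
  choose F hF1 hF2 hF3 using hF
  have hw : ∀ v, ∃ w, v ∈ R → SR g.symm (c / 16) v w ∧ (∀ r ∈ R, η₂ ≤ dist w r) ∧
      ∀ t ≥ T₀, ∃ a ∈ A, dist a (g^[t] w) < δn := by
    intro v
    by_cases hv : v ∈ R
    · obtain ⟨w, hw⟩ := hex v hv
      exact ⟨w, fun _ => hw⟩
    · exact ⟨v, fun h => absurd h hv⟩
  choose w hw using hw
  -- the sets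
  set S : ℕ → (Σ _ : ℕ, X) → Set X := fun J s =>
    DK g ε₃ (j₀ * (s.1 + 1) + J) (w (g^[j₀ * (s.1 + 1)] s.2)) with hS
  have hSdef : ∀ J i y u, u ∈ S J ⟨i, y⟩ →
      SR g.symm ε₃ (w (g^[j₀ * (i + 1)] y)) (g^[j₀ * (i + 1)] (g^[J] u)) := by
    intro J i y u hu
    have h5 : SR g.symm ε₃ (w (g^[j₀ * (i + 1)] y)) (g^[j₀ * (i + 1) + J] u) := hu
    rwa [Function.iterate_add_apply] at h5
  have hp1 : ∀ J i y u, y ∈ R → u ∈ S J ⟨i, y⟩ →
      SR g.symm (c / 8) (g^[j₀ * (i + 1)] y) (g^[j₀ * (i + 1)] (g^[J] u)) := by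
    intro J i y u hy hu
    have h4 := hSdef J i y u hu
    have h5 := (hw _ (hgR (j₀ * (i + 1)) y hy)).1
    exact (sr_tr h5 h4).mono (by linarith)
  have hp2 : ∀ J i y u, y ∈ R → u ∈ S J ⟨i, y⟩ → ∀ r ∈ R,
      3 * η₂ / 4 ≤ dist (g^[j₀ * (i + 1)] (g^[J] u)) r := by
    intro J i y u hy hu r hr
    have h4 := hSdef J i y u hu 0
    simp only [Function.iterate_zero, id] at h4
    have h5 := (hw _ (hgR (j₀ * (i + 1)) y hy)).2.1 r hr
    have := dist_triangle (w (g^[j₀ * (i + 1)] y)) (g^[j₀ * (i + 1)] (g^[J] u)) r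
    linarith
  have hp3 : ∀ J i y u, y ∈ R → u ∈ S J ⟨i, y⟩ → ∀ k ≤ j₀ * (i + 1),
      dist (g^[k] y) (g^[k] (g^[J] u)) ≤ c / 8 := by
    intro J i y u hy hu k hk
    have h4 := hp1 J i y u hy hu (j₀ * (i + 1) - k)
    rw [bk g (by omega), bk g (by omega)] at h4
    have e : j₀ * (i + 1) - (j₀ * (i + 1) - k) = k := by omega
    rwa [e] at h4
  have hcross : ∀ J i i', i < i' → ∀ y ∈ F i, ∀ y' ∈ F i', ∀ u, u ∈ S J ⟨i, y⟩ →
      u ∈ S J ⟨i', y'⟩ → False := by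
    intro J i i' hii y hy y' hy' u hu hu'
    have h4 := hp2 J i y u (hF1 i y hy).2 hu _ (hgR (j₀ * (i + 1)) y' (hF1 i' y' hy').2)
    have h5 := h.cU _ _ ((hp1 J i' y' u (hF1 i' y' hy').2 hu').mono (by linarith))
      (j₀ * (i' + 1) - j₀ * (i + 1))
    have h6 : j₀ * (i + 1) + j₀ ≤ j₀ * (i' + 1) := by nlinarith
    rw [bk g (by omega), bk g (by omega)] at h5
    have e : j₀ * (i' + 1) - (j₀ * (i' + 1) - j₀ * (i + 1)) = j₀ * (i + 1) := by omega
    rw [e] at h5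
    have h7 := h5.trans ((pw_anti hc (show j₁ ≤ _ by omega)).trans hj₁)
    rw [dist_comm] at h7
    linarith
  have hsame : ∀ J i, ∀ y ∈ F i, ∀ y' ∈ F i, y ≠ y' → ∀ u, u ∈ S J ⟨i, y⟩ →
      u ∈ S J ⟨i, y'⟩ → False := by
    intro J i y hy y' hy' hne u hu hu'
    obtain ⟨k, hk, h4⟩ := hF2 i y hy y' hy' hne
    have h5 := hp3 J i y u (hF1 i y hy).2 hu k hk
    have h6 := hp3 J i y' u (hF1 i y' hy').2 hu' k hk
    have := dist_triangle_right (g^[k] y) (g^[k] y') (g^[k] (g^[J] u))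
    linarith
  set I : Finset (Σ _ : ℕ, X) := (Finset.range m).sigma F with hI
  have hdisjS : ∀ J, (I : Set (Σ _ : ℕ, X)).PairwiseDisjoint (S J) := by
    rintro J ⟨i, y⟩ hs ⟨i', y'⟩ hs' hne
    rw [Finset.mem_coe, hI, Finset.mem_sigma] at hs hs'
    rw [Function.onFun, Set.disjoint_left]
    intro u hu hu'
    rcases lt_trichotomy i i' with h5 | h5 | h5
    · exact hcross J i i' h5 y hs.2 y' hs'.2 u hu hu'
    · subst h5
      exact hsame J i y hs.2 y' hs'.2 (fun e => hne (by rw [e])) u hu hu'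
    · exact hcross J i' i h5 y' hs'.2 y hs.2 u hu' hu
  have hSsub : ∀ J, ∀ s ∈ I, S J s ⊆ {y | SR g.symm (c / 4) (g.symm^[J] r) y} := by
    rintro J ⟨i, y⟩ hs u hu
    rw [hI, Finset.mem_sigma] at hs
    have h5 : SR g.symm (c / 8) y (g^[J] u) := by
      intro k
      have := hp1 J i y u (hF1 i y hs.2).2 hu (k + j₀ * (i + 1))
      rw [Function.iterate_add_apply, Function.iterate_add_apply, iterL, iterL] at this
      exact this
    have h6 : SR g.symm (c / 4) r (g^[J] u) := (sr_tr (hF1 i y hs.2).1 h5).mono (by linarith)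
    intro k
    have h7 := h6 (k + J)
    rw [Function.iterate_add_apply, Function.iterate_add_apply, iterL] at h7
    exact h7
  have hsumJ : ∀ J, ∑ s ∈ I, ν (g.symm^[J] r) (S J s) ≤
      ν (g.symm^[J] r) {y | SR g.symm (c / 4) (g.symm^[J] r) y} := by
    intro J
    rw [← measure_biUnion_finset (hdisjS J) (fun s _ => (isClosed_DK g _ _ _).measurableSet)]
    exact measure_mono (iUnion₂_subset fun s hs => hSsub J s hs)
  have htot : ∑ s ∈ I, ∑ J ∈ Finset.range (Nr + 1), ν (g.symm^[J] r) (S J s) ≤ V := by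
    rw [Finset.sum_comm]
    exact Finset.sum_le_sum fun J _ => hsumJ J
  -- the lower bound for each piece
  have hlow : ∀ s ∈ I, b ≤ (C₁ * p (j₀ * (s.1 + 1) + N₁) : ℕ) *
      ∑ J ∈ Finset.range (Nr + 1), ν (g.symm^[J] r) (S J s) := by
    rintro ⟨i, y⟩ hs
    rw [hI, Finset.mem_sigma] at hs
    have hyR := (hF1 i y hs.2).2
    set k := j₀ * (i + 1) with hk
    set wy := w (g^[k] y) with hwy
    obtain ⟨w1, w2, w3⟩ := hw _ (hgR k y hyR)
    obtain ⟨z, hz, hbz⟩ := hgood (k + N₁)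
    obtain ⟨J, hJ, z', hz1, hz2⟩ := hreach z hz (g^[T] wy) (w3 T (le_max_left _ _))
    have hcp := hcopy (k + (Nr - J) + T) J z (g^[T] wy) ⟨z', hz1, hz2⟩
    have e1 : k + (Nr - J) + T + (J + J₀) = k + N₁ := by omega
    rw [e1] at hcp
    have e2 : g.symm^[k + (Nr - J) + T] (g^[T] wy) = g.symm^[k + (Nr - J)] wy := by
      rw [Function.iterate_add_apply, iterL]
    rw [e2] at hcp
    have e3 : ν (g.symm^[k + (Nr - J)] wy) = ν (g.symm^[Nr - J] r) := by
      refine (H.leaf _ _ ?_).symm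
      have h5 : WS g.symm r y := WS.of_SR (h.cU _ _ ((hF1 i y hs.2).1.mono (by linarith)))
      have h6 : WS g.symm (g^[k] y) wy := WS.of_SR (h.cU _ _ (w1.mono (by linarith)))
      have h7 := (WS.iter (g := g.symm) k).mpr h6
      rw [iterL] at h7
      have h8 := (WS.iter (g := g.symm) (Nr - J)).mpr (h5.trans h7)
      rwa [← Function.iterate_add_apply, Nat.add_comm] at h8
    rw [e3] at hcp
    have h9 : DK g (c / 4) (k + (Nr - J) + T) (g^[T] wy) ⊆ S (Nr - J) ⟨i, y⟩ := by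
      intro u hu
      have h5 : SR g.symm (c / 4) (g^[T] wy) (g^[k + (Nr - J) + T] u) := hu
      have h6 := sr_back h ((pw_anti hc (le_max_right T₀ je)).trans hje) (h5.mono (by linarith))
      rw [← hT, iterL, bk g (show T ≤ k + (Nr - J) + T by omega), Nat.add_sub_cancel] at h6
      exact h6
    have h10 : ν (g.symm^[Nr - J] r) (S (Nr - J) ⟨i, y⟩) ≤
        ∑ J ∈ Finset.range (Nr + 1), ν (g.symm^[J] r) (S J ⟨i, y⟩) :=
      Finset.single_le_sum (f := fun J => ν (g.symm^[J] r) (S J ⟨i, y⟩))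
        (fun _ _ => bot_le) (Finset.mem_range.mpr (by omega))
    calc b ≤ _ := hbz
      _ ≤ _ := by
        refine mul_le_mul' le_rfl ?_
        exact hcp.trans ((measure_mono h9).trans h10)
  -- real numbers
  set σ : (Σ _ : ℕ, X) → ℝ := fun s =>
    (∑ J ∈ Finset.range (Nr + 1), ν (g.symm^[J] r) (S J s)).toReal with hσ
  have hfin : ∀ s ∈ I, ∑ J ∈ Finset.range (Nr + 1), ν (g.symm^[J] r) (S J s) < ⊤ := by
    intro s hs
    refine lt_of_le_of_lt ?_ hVt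
    exact (Finset.single_le_sum (f := fun s => ∑ J ∈ Finset.range (Nr + 1),
      ν (g.symm^[J] r) (S J s)) (fun _ _ => bot_le) hs).trans htot
  have hσsum : ∑ s ∈ I, σ s ≤ V.toReal := by
    rw [hσ, ← ENNReal.toReal_sum (fun s hs => (hfin s hs).ne)]
    exact ENNReal.toReal_mono hVt.ne htot
  have hσlow : ∀ s ∈ I, β ≤ (C₁ * K₄) * p (j₀ * (s.1 + 1)) * σ s := by
    intro s hs
    have h5 := ENNReal.toReal_mono (ENNReal.mul_ne_top (ENNReal.natCast_ne_top _) (hfin s hs).ne)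
      (hlow s hs)
    rw [ENNReal.toReal_mul, ENNReal.toReal_natCast] at h5
    refine h5.trans (mul_le_mul_of_nonneg_right ?_ ENNReal.toReal_nonneg)
    have h6 := h4 (j₀ * (s.1 + 1)) a
    have h7 : C₁ * p (j₀ * (s.1 + 1) + N₁) ≤ C₁ * K₄ * p (j₀ * (s.1 + 1)) := by
      calc C₁ * p (j₀ * (s.1 + 1) + N₁) ≤ C₁ * (K₄ * p (j₀ * (s.1 + 1))) :=
            Nat.mul_le_mul_left _ h6
        _ = _ := by ring
    exact_mod_cast h7
  have hp0 : ∀ k, (0 : ℝ) < p k := fun k => by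
    exact_mod_cast one_le_P g (by linarith) (by linarith) k a
  have hterm : ∀ i ∈ Finset.range m, (q (j₀ * (i + 1)) : ℝ) / p (j₀ * (i + 1)) ≤
      K₁ * (N + 1) * (C₁ * K₄) / β * ∑ y ∈ F i, σ ⟨i, y⟩ := by
    intro i hi
    rw [div_le_iff₀ (hp0 _)]
    have h5 : (q (j₀ * (i + 1)) : ℝ) ≤ K₁ * (N + 1) * (F i).card := by exact_mod_cast hF3 i
    refine h5.trans ?_
    have h6 : ((F i).card : ℝ) * β ≤ (C₁ * K₄) * p (j₀ * (i + 1)) * ∑ y ∈ F i, σ ⟨i, y⟩ := by
      rw [Finset.mul_sum, ← nsmul_eq_mul, ← Finset.sum_const]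
      refine Finset.sum_le_sum fun y hy => ?_
      exact hσlow ⟨i, y⟩ (Finset.mem_sigma.mpr ⟨hi, hy⟩)
    have h7 : ((F i).card : ℝ) ≤ (C₁ * K₄) * p (j₀ * (i + 1)) * (∑ y ∈ F i, σ ⟨i, y⟩) / β := by
      rwa [le_div_iff₀ hβ0]
    calc (K₁ : ℝ) * (N + 1) * (F i).card
        ≤ K₁ * (N + 1) * ((C₁ * K₄) * p (j₀ * (i + 1)) * (∑ y ∈ F i, σ ⟨i, y⟩) / β) := by
          gcongr
      _ = _ := by ring
  calc ∑ i ∈ Finset.range m, (q (j₀ * (i + 1)) : ℝ) / p (j₀ * (i + 1))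
      ≤ ∑ i ∈ Finset.range m, K₁ * (N + 1) * (C₁ * K₄) / β * ∑ y ∈ F i, σ ⟨i, y⟩ :=
        Finset.sum_le_sum hterm
    _ = K₁ * (N + 1) * (C₁ * K₄) / β * ∑ s ∈ I, σ s := by
        rw [← Finset.mul_sum, hI, Finset.sum_sigma]
    _ ≤ _ := by gcongr

/-- **Two transverse measures of full support exclude proper attractors.** -/
theorem no_pair [CompactSpace X] [MeasurableSpace X] [BorelSpace X] [Nonempty X]
    {g : X ≃ₜ X} {c : ℝ} (h : LP g c) {ν ν' : X → Measure X} (H : TI g c ν)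
    (H' : TI g.symm c ν') {R A : Set X}
    (hR : MinAtt g.symm R) (hA : MinAtt g A) (hdisj : Disjoint A R)
    (hcon : ∃ r ∈ R, ∃ w, WS g.symm r w ∧ w ∈ Bas g A) : False := by
  have hc := h.c_pos
  obtain ⟨r, hr⟩ := hR.1.nonempty
  obtain ⟨a, ha⟩ := hA.1.nonempty
  have hcon' : ∃ a ∈ A, ∃ w, WS g.symm.symm a w ∧ w ∈ Bas g.symm R := by
    obtain ⟨r, hr, w, h1, z, hz, h2⟩ := hcon
    exact ⟨z, hz, w, h2.symm', r, hr, h1.symm'⟩
  obtain ⟨C, j₂, hC⟩ := H.sum_bound h hR hA hdisj hcon hr ha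
  obtain ⟨C', j₂', hC'⟩ := TI.sum_bound (g := g.symm) h.symm H' (R := A) (A := R) hA hR
    hdisj.symm hcon' ha hr
  set j := max j₂ j₂' with hj
  obtain ⟨m, hm⟩ := exists_nat_gt (C + C')
  have h1 := hC j (le_max_left _ _) m
  have h2 := hC' j (le_max_right _ _) m
  have h3 : (m : ℝ) ≤ ∑ i ∈ Finset.range m, ((P g.symm (c / 4) (c / 2) (j * (i + 1)) r : ℝ) /
        P g (c / 4) (c / 2) (j * (i + 1)) a + (P g.symm.symm (c / 4) (c / 2) (j * (i + 1)) a : ℝ) /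
        P g.symm (c / 4) (c / 2) (j * (i + 1)) r) := by
    calc (m : ℝ) = ∑ i ∈ Finset.range m, (1 : ℝ) := by simp
      _ ≤ _ := by
        refine Finset.sum_le_sum fun i _ => ?_
        have hp0 : (0 : ℝ) < P g (c / 4) (c / 2) (j * (i + 1)) a := by
          exact_mod_cast one_le_P g (by linarith) (by linarith) _ a
        have hq0 : (0 : ℝ) < P g.symm (c / 4) (c / 2) (j * (i + 1)) r := by
          exact_mod_cast one_le_P g.symm (by linarith) (by linarith) _ r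
        have e : (P g.symm.symm (c / 4) (c / 2) (j * (i + 1)) a : ℝ) =
            P g (c / 4) (c / 2) (j * (i + 1)) a := rfl
        rw [e]
        generalize (P g.symm (c / 4) (c / 2) (j * (i + 1)) r : ℝ) = x at hq0 ⊢
        generalize (P g (c / 4) (c / 2) (j * (i + 1)) a : ℝ) = y at hp0 ⊢
        rcases le_total x y with hxy | hxy
        · have h4 : 1 ≤ y / x := (one_le_div hq0).mpr hxy
          have h5 : 0 ≤ x / y := by positivity
          linarith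
        · have h4 : 1 ≤ x / y := (one_le_div hp0).mpr hxy
          have h5 : 0 ≤ y / x := by positivity
          linarith
  rw [Finset.sum_add_distrib] at h3
  linarith

end Pool.Agent.X183.Tm
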