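import Mathlib
import Pool.Agent.TH289.Def

/-!
# Invariant transverse measures of the stable foliation
-/

set_option autoImplicit false

open Filter Topology Set MeasureTheory

namespace Pool.Agent.X183.Tm

open Pool.Agent.TH289

/-- The local unstable set of `x` of size `𝒰`, where `𝒰` is a neighbourhood of the diagonal. -/
def locUnst {M : Type*} (f : M ≃ M) (𝒰 : Set (M × M)) (x : M) : Set M :=
  {y | ∀ n : ℕ, (f.symm^[n] x, f.symm^[n] y) ∈ 𝒰}

/-- `ν` is a transverse measure of the stable foliation of `f`, invariant under the stable holonomy,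
locally finite and of full support.  It is given by a Borel measure `ν x` on each unstable leaf
(`{y | Asym f.symm x y}`; only the values of `ν x` on subsets of the unstable leaf of `x` matter).
* `ν x` depends only on the unstable leaf of `x`.
* Local unstable sets of some size have finite measure, and those of every size positive measure.
* If `A`, `B` are Borel subsets of the unstable leaves of `x` and `y`, and `H : A → B` is a stable
  holonomy, that is, a bijection such that, for some `m` and all `z ∈ A`, the points `fᵐ z` and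
  `fᵐ (H z)` are in the same local stable set of size `𝒰`, then `ν x A = ν y B`
  (`𝒰` is one neighbourhood of the diagonal, as small as one likes). -/
structure TransverseMeasure {M : Type*} [TopologicalSpace M] [MeasurableSpace M] (f : M ≃ₜ M)
    (ν : M → Measure M) : Prop where
  leaf : ∀ x y, Asym f.symm x y → ν x = ν y
  finite : ∃ 𝒰 ∈ 𝓝ˢ (diagonal M), ∀ x, ν x (locUnst f.toEquiv 𝒰 x) < ⊤
  pos : ∀ 𝒰 ∈ 𝓝ˢ (diagonal M), ∀ x, 0 < ν x (locUnst f.toEquiv 𝒰 x)
  invariant : ∃ 𝒰 ∈ 𝓝ˢ (diagonal M), ∀ (m : ℕ) (x y : M) (A B : Set M) (H : M → M),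
    MeasurableSet A → MeasurableSet B → (∀ z ∈ A, Asym f.symm x z) →
    (∀ z ∈ B, Asym f.symm y z) → BijOn H A B →
    (∀ z ∈ A, ∀ n ≥ m, (f^[n] z, f^[n] (H z)) ∈ 𝒰) → ν x A = ν y B

end Pool.Agent.X183.Tm
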