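import Pool.Agent.X183.Tm.A3
import Pool.Agent.X183.Tm.Def

/-!
# Anosov diffeomorphisms with transverse measures of full support
-/

set_option autoImplicit false
set_option linter.unusedSectionVars false

open Filter Topology Set Metric MeasureTheory
open scoped Manifold ContDiff Uniformity

namespace Pool.Agent.X183.Tm

open Pool.Agent.H789R2.AN Pool.Agent.Y330.G Pool.Agent.X183.Gap Pool.Agent.TH289
  Pool.Agent.H721R2

section metric

variable {X : Type*} [MetricSpace X] [CompactSpace X]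

theorem ws_of_iter (f : X ≃ₜ X) {N : ℕ} (hN : 1 ≤ N) {x y : X} (h : WS (iterHomeo f N) x y) :
    WS f x y := by
  refine tendsto_order.mpr ⟨fun a ha => Eventually.of_forall fun n =>
    lt_of_lt_of_le ha dist_nonneg, fun a ha => ?_⟩
  obtain ⟨η, hη, h1⟩ := uc f f.continuous N ha
  obtain ⟨m, hm⟩ := h.eventually_lt hη
  filter_upwards [eventually_ge_atTop (N * m)] with n hn
  have hnn : n = n % N + N * (n / N) := (Nat.mod_add_div n N).symm
  have h2 : m ≤ n / N := by
    rw [Nat.le_div_iff_mul_le (by omega)]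
    rwa [Nat.mul_comm]
  have h3 := hm (n / N) h2
  rw [ith_iter, ith_iter] at h3
  have h4 := h1 (n % N) (Nat.mod_lt _ (by omega)).le _ _ h3
  rw [← Function.iterate_add_apply, ← Function.iterate_add_apply, ← hnn] at h4
  exact h4

theorem asym_of_ws {f : X ≃ₜ X} {x y : X} (h : WS f x y) : Asym f x y := by
  unfold Asym
  rw [nhdsSet_diagonal_eq_uniformity, tendsto_uniformity_iff_dist_tendsto_zero]
  exact h

theorem diag_dist {𝒰 : Set (X × X)} (h : 𝒰 ∈ 𝓝ˢ (diagonal X)) :
    ∃ ε > 0, ∀ a b : X, dist a b < ε → (a, b) ∈ 𝒰 := by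
  rw [nhdsSet_diagonal_eq_uniformity] at h
  obtain ⟨ε, hε, h1⟩ := Metric.mem_uniformity_dist.mp h
  exact ⟨ε, hε, fun a b hab => h1 hab⟩

theorem TransverseMeasure.ti [MeasurableSpace X] {f : X ≃ₜ X} {N : ℕ} (hN : 1 ≤ N) {c : ℝ}
    (h : LP (iterHomeo f N) c) {ν : X → Measure X} (H : TransverseMeasure f ν) :
    TI (iterHomeo f N) c ν := by
  have hc := h.c_pos
  have hsy : (iterHomeo f N).symm = iterHomeo f.symm N := ith_symm f N
  have hws : ∀ x y, WS (iterHomeo f N).symm x y → Asym f.symm x y := by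
    intro x y hxy
    rw [hsy] at hxy
    exact asym_of_ws (ws_of_iter f.symm hN hxy)
  refine ⟨fun x y hxy => H.leaf x y (hws x y hxy), ?_, ?_, ?_⟩
  · obtain ⟨𝒰, h𝒰, h1⟩ := H.finite
    obtain ⟨ε₁, hε₁, h2⟩ := diag_dist h𝒰
    obtain ⟨η, hη, h3⟩ := uc f.symm f.symm.continuous N hε₁
    refine ⟨η / 2, half_pos hη, fun x => lt_of_le_of_lt (measure_mono ?_) (h1 x)⟩
    intro y hy n
    apply h2
    have hnn : n = n % N + N * (n / N) := (Nat.mod_add_div n N).symm
    have h4 := hy (n / N)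
    rw [hsy, ith_iter, ith_iter] at h4
    have h5 := h3 (n % N) (Nat.mod_lt _ (by omega)).le _ _ (h4.trans_lt (half_lt_self hη))
    rw [← Function.iterate_add_apply, ← Function.iterate_add_apply, ← hnn] at h5
    exact h5
  · intro ε hε x
    have h1 : {q : X × X | dist q.1 q.2 < ε} ∈ 𝓝ˢ (diagonal X) := by
      rw [nhdsSet_diagonal_eq_uniformity]
      exact Metric.dist_mem_uniformity hε
    refine lt_of_lt_of_le (H.pos _ h1 x) (measure_mono ?_)
    intro y hy k
    rw [hsy, ith_iter, ith_iter]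
    exact (hy (N * k)).le
  · intro K x y A B Hm hA hB hxA hyB hbij hSR
    obtain ⟨𝒰, h𝒰, h1⟩ := H.invariant
    obtain ⟨ε₁, hε₁, h2⟩ := diag_dist h𝒰
    obtain ⟨η, hη, h3⟩ := uc f f.continuous N hε₁
    obtain ⟨j, hj⟩ := pw (c := c) (half_pos hη)
    refine h1 (N * (K + j)) x y A B Hm hA hB (fun z hz => hws _ _ (hxA z hz))
      (fun z hz => hws _ _ (hyB z hz)) hbij fun z hz n hn => ?_
    apply h2
    have hnn : n = n % N + N * (n / N) := (Nat.mod_add_div n N).symm
    have hnN : K + j ≤ n / N := by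
      rw [Nat.le_div_iff_mul_le (by omega)]
      rwa [Nat.mul_comm]
    have h4 := h.cS _ _ (hSR z hz) (n / N - K)
    rw [← Function.iterate_add_apply, ← Function.iterate_add_apply,
      Nat.sub_add_cancel (show K ≤ n / N by omega), ith_iter, ith_iter] at h4
    have h5 := h4.trans ((pw_anti hc (show j ≤ n / N - K by omega)).trans hj)
    have h6 := h3 (n % N) (Nat.mod_lt _ (by omega)).le _ _ (h5.trans_lt (half_lt_self hη))
    rw [← Function.iterate_add_apply, ← Function.iterate_add_apply, ← hnn] at h6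
    exact h6

theorem abs_tm [ConnectedSpace X] [MeasurableSpace X] [BorelSpace X] {f : X ≃ₜ X} {N : ℕ}
    (hN : 1 ≤ N) {c : ℝ} (h : LP (iterHomeo f N) c) {ν ν' : X → Measure X}
    (H : TransverseMeasure f ν) (H' : TransverseMeasure f.symm ν') :
    TopTransitive (f : X → X) := by
  refine (trans_iff hN h).mpr fun S hS => ?_
  by_contra hne
  obtain ⟨R, A, hR, hA, hdisj, hcon⟩ := exists_pair h hS hne
  have h' : LP (iterHomeo f.symm N) c := by
    rw [← ith_symm]
    exact h.symm
  have H2 := H'.ti hN h'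
  rw [← ith_symm] at H2
  exact no_pair h (H.ti hN h) H2 hR hA hdisj hcon

end metric

variable {E : Type*} [NormedAddCommGroup E] [NormedSpace ℝ E] [FiniteDimensional ℝ E]

/-- **Anosov diffeomorphisms whose stable and unstable foliations carry invariant transverse
measures of full support are transitive.** -/
theorem man_tm {M : Type*} [TopologicalSpace M] [T2Space M] [CompactSpace M] [ConnectedSpace M]
    [MeasurableSpace M] [BorelSpace M]
    [ChartedSpace E M] [IsManifold 𝓘(ℝ, E) ∞ M] (f : Diffeomorph 𝓘(ℝ, E) 𝓘(ℝ, E) M M 1)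
    (Es Eu : ∀ x : M, Submodule ℝ (TangentSpace 𝓘(ℝ, E) x)) (hA : IsAnosov f Es Eu)
    {ν ν' : M → Measure M} (H : TransverseMeasure f.toHomeomorph ν)
    (H' : TransverseMeasure f.toHomeomorph.symm ν') : TopTransitive f := by
  obtain ⟨m, e, he, hemb, hinj⟩ := exists_embedding_euclidean_of_compact (I := 𝓘(ℝ, E)) (M := M)
  let _ : MetricSpace M := hemb.isEmbedding.comapMetricSpace e
  have hiso : ∀ x y : M, dist x y = ‖e x - e y‖ := fun x y => dist_eq_norm (e x) (e y)
  have he1 : ContMDiff 𝓘(ℝ, E) (𝓡 m) 1 e := he.of_le (by simp)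
  obtain ⟨N, S, hN, hg, -⟩ := exists_sys_pos hiso he1 hinj f Es Eu hA 1
  obtain ⟨c, hc⟩ := exists_LP S
  rw [hg] at hc
  exact abs_tm hN hc H H'

end Pool.Agent.X183.Tm
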